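import Mathlib
import Pool.Agent.Helper14.Poly.Defs
import Pool.Agent.Helper45.RT.Final

/-!
The least `n` for which some convex `n`-gon has a second most frequent distance occurring more
than `n` times is `11`.
-/

set_option autoImplicit false

open Pool.Agent.Helper14.Poly

namespace Pool.Agent.Results.MP_47dd75_co.LeastIsEleven

/-- The least `n` with `r₂(n) > n` is `11`. -/
theorem result : IsLeast {n : ℕ | n < r₂ n} 11 := RTwo.least_eleven

end Pool.Agent.Results.MP_47dd75_co.LeastIsEleven
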